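import Pool.Agent.Helper88.RR.Goals

/-!
# Bonferroni inequalities for periodic weights
-/

set_option autoImplicit false

open Finset

namespace Pool.Agent.Helper6.RR

open Pool.Agent.Helper88.RR

/-- elementary symmetric sums -/
noncomputable def el (x : ℕ → ℝ) (j : ℕ) (S : Finset ℕ) : ℝ :=
  ∑ D ∈ S.powersetCard j, ∏ p ∈ D, x p

theorem el_zero (x : ℕ → ℝ) (S : Finset ℕ) : el x 0 S = 1 := by
  simp [el]

theorem el_empty (x : ℕ → ℝ) (j : ℕ) : el x (j + 1) ∅ = 0 := by
  unfold el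
  rw [powersetCard_eq_empty.2 (by simp), sum_empty]

theorem el_insert (x : ℕ → ℝ) (j : ℕ) {S : Finset ℕ} {p : ℕ} (hp : p ∉ S) :
    el x (j + 1) (insert p S) = el x (j + 1) S + x p * el x j S := by
  unfold el
  rw [powersetCard_succ_insert hp, sum_union, sum_image, mul_sum]
  · congr 1
    refine sum_congr rfl fun D hD => ?_
    rw [prod_insert]
    intro h
    exact hp ((mem_powersetCard.1 hD).1 h)
  · intro D hD D' hD' h
    have h1 : p ∉ D := fun h => hp ((mem_powersetCard.1 hD).1 h)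
    have h2 : p ∉ D' := fun h => hp ((mem_powersetCard.1 hD').1 h)
    rw [← erase_insert h1, ← erase_insert h2, h]
  · rw [Finset.disjoint_left]
    intro D hD hD'
    obtain ⟨D', -, rfl⟩ := mem_image.1 hD'
    exact hp ((mem_powersetCard.1 hD).1 (mem_insert_self p D'))

theorem el_nonneg {x : ℕ → ℝ} {S : Finset ℕ} (hx : ∀ p ∈ S, 0 ≤ x p) (j : ℕ) : 0 ≤ el x j S :=
  sum_nonneg fun _ hD => prod_nonneg fun p hp => hx p ((mem_powersetCard.1 hD).1 hp)

/-- alternating sums -/
noncomputable def alt (x : ℕ → ℝ) (r : ℕ) (S : Finset ℕ) : ℝ :=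
  ∑ j ∈ range (r + 1), (-1) ^ j * el x j S

theorem alt_insert_zero (x : ℕ → ℝ) (S : Finset ℕ) : alt x 0 S = 1 := by
  simp [alt, el_zero]

theorem alt_insert (x : ℕ → ℝ) (r : ℕ) {S : Finset ℕ} {p : ℕ} (hp : p ∉ S) :
    alt x (r + 1) (insert p S) = alt x (r + 1) S - x p * alt x r S := by
  unfold alt
  rw [sum_range_succ', sum_range_succ' (fun j => (-1) ^ j * el x j S) (r + 1), mul_sum,
    el_zero, el_zero]
  have : ∀ j ∈ range (r + 1), (-1 : ℝ) ^ (j + 1) * el x (j + 1) (insert p S) =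
      (-1) ^ (j + 1) * el x (j + 1) S - x p * ((-1) ^ j * el x j S) := by
    intro j _
    rw [el_insert x j hp]; ring
  rw [sum_congr rfl this, sum_sub_distrib]
  ring

theorem alt_sign {x : ℕ → ℝ} (S : Finset ℕ) : (∀ p ∈ S, 0 ≤ x p ∧ x p ≤ 1) → ∀ r : ℕ,
    0 ≤ (-1) ^ r * (alt x r S - ∏ p ∈ S, (1 - x p)) := by
  classical
  induction S using Finset.induction_on with
  | empty =>
    intro _ r
    have : alt x r ∅ = 1 := by
      unfold alt
      rw [sum_range_succ', el_zero]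
      simp [el_empty]
    simp [this]
  | insert p S hp ih =>
    intro hx r
    have hS : ∀ q ∈ S, 0 ≤ x q ∧ x q ≤ 1 := fun q hq => hx q (mem_insert_of_mem hq)
    have hp' := hx p (mem_insert_self p S)
    have hP : 0 ≤ ∏ q ∈ S, (1 - x q) := prod_nonneg fun q hq => by linarith [(hS q hq).2]
    rw [prod_insert hp]
    cases r with
    | zero =>
      have h0 := ih hS 0
      rw [alt_insert_zero] at h0 ⊢
      simp only [pow_zero, one_mul] at h0 ⊢
      nlinarith
    | succ r =>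
      have h0 := ih hS (r + 1)
      have h1 := ih hS r
      rw [alt_insert x r hp]
      have : (-1 : ℝ) ^ (r + 1) * (alt x (r + 1) S - x p * alt x r S -
          (1 - x p) * ∏ q ∈ S, (1 - x q)) =
          (-1) ^ (r + 1) * (alt x (r + 1) S - ∏ q ∈ S, (1 - x q)) +
            x p * ((-1) ^ r * (alt x r S - ∏ q ∈ S, (1 - x q))) := by ring
      rw [this]
      exact add_nonneg h0 (mul_nonneg hp'.1 h1)

theorem alt_bound {x : ℕ → ℝ} (S : Finset ℕ) (hx : ∀ p ∈ S, 0 ≤ x p ∧ x p ≤ 1) (r : ℕ) :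
    |∏ p ∈ S, (1 - x p) - alt x r S| ≤ el x (r + 1) S := by
  have h0 := alt_sign S hx r
  have h1 := alt_sign S hx (r + 1)
  have h2 : alt x (r + 1) S = alt x r S + (-1) ^ (r + 1) * el x (r + 1) S := by
    unfold alt; rw [sum_range_succ]
  rw [h2] at h1
  have h3 : (-1 : ℝ) ^ (r + 1) * (-1) ^ (r + 1) = 1 := by
    rw [← mul_pow]; norm_num
  have h4 : (-1 : ℝ) ^ (r + 1) * (alt x r S + (-1) ^ (r + 1) * el x (r + 1) S -
      ∏ p ∈ S, (1 - x p)) = -((-1) ^ r * (alt x r S - ∏ p ∈ S, (1 - x p))) +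
        ((-1) ^ (r + 1) * (-1) ^ (r + 1)) * el x (r + 1) S := by ring
  rw [h4, h3, one_mul] at h1
  have h5 : |∏ p ∈ S, (1 - x p) - alt x r S| = |(-1) ^ r * (alt x r S - ∏ p ∈ S, (1 - x p))| := by
    rw [abs_mul, abs_pow, abs_neg, abs_one, one_pow, one_mul, abs_sub_comm]
  rw [h5, abs_of_nonneg h0]
  linarith

theorem pow_ineq {s x : ℝ} (hs : 0 ≤ s) (hx : 0 ≤ x) (j : ℕ) :
    s ^ (j + 1) + (j + 1) * x * s ^ j ≤ (s + x) ^ (j + 1) := by
  induction j with
  | zero => simp
  | succ j ih =>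
    have h1 : (s + x) * (s ^ (j + 1) + (j + 1) * x * s ^ j) ≤ (s + x) * (s + x) ^ (j + 1) :=
      mul_le_mul_of_nonneg_left ih (by linarith)
    have h2 : 0 ≤ (j + 1) * x * s ^ j * x := by positivity
    calc s ^ (j + 1 + 1) + ((j + 1 : ℕ) + 1) * x * s ^ (j + 1)
        = (s + x) * (s ^ (j + 1) + (j + 1) * x * s ^ j) - (j + 1) * x * s ^ j * x := by
          push_cast; ring
      _ ≤ (s + x) * (s + x) ^ (j + 1) := by linarith
      _ = (s + x) ^ (j + 1 + 1) := by ring

theorem el_le {x : ℕ → ℝ} (S : Finset ℕ) : (∀ p ∈ S, 0 ≤ x p) → ∀ j : ℕ,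
    el x j S ≤ (∑ p ∈ S, x p) ^ j / j.factorial := by
  classical
  induction S using Finset.induction_on with
  | empty =>
    intro _ j
    cases j with
    | zero => simp [el_zero]
    | succ j => rw [el_empty]; simp
  | insert p S hp ih =>
    intro hx j
    have hS : ∀ q ∈ S, 0 ≤ x q := fun q hq => hx q (mem_insert_of_mem hq)
    have hp' := hx p (mem_insert_self p S)
    cases j with
    | zero => simp [el_zero]
    | succ j =>
      rw [el_insert x j hp, sum_insert hp]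
      have h1 := ih hS (j + 1)
      have h2 := mul_le_mul_of_nonneg_left (ih hS j) hp'
      have h3 := pow_ineq (sum_nonneg hS) hp' j
      have hf : (0 : ℝ) < (j.factorial : ℝ) := by exact_mod_cast j.factorial_pos
      have hf1 : ((j + 1).factorial : ℝ) = (j + 1) * j.factorial := by
        rw [Nat.factorial_succ]; push_cast; ring
      rw [hf1] at h1 ⊢
      have h4 : x p * ((∑ q ∈ S, x q) ^ j / j.factorial) =
          ((j + 1) * x p * (∑ q ∈ S, x q) ^ j) / ((j + 1) * j.factorial) := by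
        field_simp
      rw [h4] at h2
      calc el x (j + 1) S + x p * el x j S
          ≤ (∑ q ∈ S, x q) ^ (j + 1) / ((j + 1) * j.factorial) +
            ((j + 1) * x p * (∑ q ∈ S, x q) ^ j) / ((j + 1) * j.factorial) := add_le_add h1 h2
        _ = ((∑ q ∈ S, x q) ^ (j + 1) + (j + 1) * x p * (∑ q ∈ S, x q) ^ j) /
            ((j + 1) * j.factorial) := by rw [add_div]
        _ ≤ (x p + ∑ q ∈ S, x q) ^ (j + 1) / ((j + 1) * j.factorial) := by
            rw [add_comm (x p)]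
            gcongr

theorem sum_el_le {x : ℕ → ℝ} (S : Finset ℕ) (hx : ∀ p ∈ S, 0 ≤ x p) (r : ℕ) :
    ∑ j ∈ range (r + 1), el x j S ≤ (1 + ∑ p ∈ S, x p) ^ r := by
  have hU : 0 ≤ ∑ p ∈ S, x p := sum_nonneg hx
  rw [add_comm 1, add_pow]
  refine sum_le_sum fun j hj => ?_
  refine (el_le S hx j).trans ?_
  rw [one_pow, mul_one, div_eq_mul_inv]
  refine mul_le_mul_of_nonneg_left ?_ (by positivity)
  have h1 : (1 : ℝ) ≤ j.factorial := by exact_mod_cast j.factorial_pos
  have h2 : (1 : ℝ) ≤ r.choose j := by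
    exact_mod_cast Nat.choose_pos (by rw [mem_range] at hj; omega)
  exact (inv_le_one_of_one_le₀ h1).trans h2

/-! ### periodic functions -/

theorem per_mul {f : ℕ → ℝ} {m : ℕ} (hf : ∀ t, f (t + m) = f t) (k t : ℕ) :
    f (t + m * k) = f t := by
  induction k with
  | zero => simp
  | succ k ih => rw [mul_add, mul_one, ← add_assoc, hf, ih]

theorem per_mod {f : ℕ → ℝ} {m : ℕ} (hf : ∀ t, f (t + m) = f t) (t : ℕ) : f (t % m) = f t := by
  conv_rhs => rw [← Nat.mod_add_div t m]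
  exact (per_mul hf _ _).symm

theorem per_sum {f : ℕ → ℝ} {m : ℕ} (hf : ∀ t, f (t + m) = f t) (k b : ℕ) :
    ∑ t ∈ range (m * k + b), f t = k * ∑ t ∈ range m, f t + ∑ t ∈ range b, f t := by
  induction k with
  | zero => simp
  | succ k ih =>
    have h1 : m * (k + 1) + b = m + (m * k + b) := by ring
    rw [h1, sum_range_add]
    have h2 : ∀ t ∈ range (m * k + b), f (m + t) = f t := fun t _ => by rw [add_comm, hf]
    rw [sum_congr rfl h2, ih]
    push_cast; ring

theorem per_bound {f : ℕ → ℝ} {m : ℕ} (hm : 0 < m) (hf : ∀ t, f (t + m) = f t)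
    (h0 : ∀ t, 0 ≤ f t) (N : ℕ) :
    |∑ t ∈ range N, f t - N * ((∑ t ∈ range m, f t) / m)| ≤ ∑ t ∈ range m, f t := by
  have hN : N = m * (N / m) + N % m := (Nat.div_add_mod N m).symm
  have hb : N % m < m := Nat.mod_lt _ hm
  set k := N / m
  set b := N % m
  set V := ∑ t ∈ range m, f t with hV
  have hm' : (0 : ℝ) < m := by exact_mod_cast hm
  have hV0 : 0 ≤ V := sum_nonneg fun t _ => h0 t
  have h1 : ∑ t ∈ range N, f t - N * (V / m) = ∑ t ∈ range b, f t - b * (V / m) := by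
    rw [hN, per_sum hf]
    push_cast
    field_simp
    ring
  rw [h1, abs_le]
  have h2 : 0 ≤ ∑ t ∈ range b, f t := sum_nonneg fun t _ => h0 t
  have h3 : ∑ t ∈ range b, f t ≤ V :=
    sum_le_sum_of_subset_of_nonneg (range_subset_range.2 hb.le) fun t _ _ => h0 t
  have h4 : 0 ≤ (b : ℝ) * (V / m) := by positivity
  have h5 : (b : ℝ) * (V / m) ≤ V := by
    rw [mul_div_assoc', div_le_iff₀ hm', mul_comm]
    exact mul_le_mul_of_nonneg_left (by exact_mod_cast hb.le) hV0
  constructor <;> linarith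

theorem crt_sum {f g : ℕ → ℝ} {m p : ℕ} (hm : 0 < m) (hp : 0 < p) (co : Nat.Coprime m p)
    (hf : ∀ t, f (t + m) = f t) (hg : ∀ t, g (t + p) = g t) :
    ∑ t ∈ range (m * p), f t * g t = (∑ t ∈ range m, f t) * ∑ t ∈ range p, g t := by
  rw [sum_mul_sum, ← sum_product']
  refine sum_nbij' (fun t => (t % m, t % p)) (fun q => (Nat.chineseRemainder co q.1 q.2 : ℕ))
    ?_ ?_ ?_ ?_ ?_
  · intro t _
    rw [mem_product, mem_range, mem_range]
    exact ⟨Nat.mod_lt _ hm, Nat.mod_lt _ hp⟩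
  · intro q _
    rw [mem_range]
    exact Nat.chineseRemainder_lt_mul co _ _ hm.ne' hp.ne'
  · intro t ht
    rw [mem_range] at ht
    have h1 : t ≡ Nat.chineseRemainder co (t % m) (t % p) [MOD m * p] :=
      Nat.chineseRemainder_modEq_unique co (Nat.mod_modEq t m).symm (Nat.mod_modEq t p).symm
    exact (Nat.ModEq.eq_of_lt_of_lt h1 ht
      (Nat.chineseRemainder_lt_mul co _ _ hm.ne' hp.ne')).symm
  · rintro ⟨a, b⟩ hq
    rw [mem_product, mem_range, mem_range] at hq
    have h := (Nat.chineseRemainder co a b).2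
    have h1 : (Nat.chineseRemainder co a b : ℕ) % m = a % m := h.1
    have h2 : (Nat.chineseRemainder co a b : ℕ) % p = b % p := h.2
    simp only [h1, h2]
    rw [Nat.mod_eq_of_lt hq.1, Nat.mod_eq_of_lt hq.2]
  · intro t _
    rw [per_mod hf, per_mod hg]

theorem prod_per (w : ℕ → ℕ → ℝ) (D : Finset ℕ) : (∀ p ∈ D, p.Prime) →
    (∀ p ∈ D, ∀ t, w p (t + p) = w p t) →
    (∀ t, ∏ p ∈ D, w p (t + ∏ p ∈ D, p) = ∏ p ∈ D, w p t) ∧
    ∑ t ∈ range (∏ p ∈ D, p), ∏ p ∈ D, w p t = ∏ p ∈ D, ∑ t ∈ range p, w p t := by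
  classical
  induction D using Finset.induction_on with
  | empty => intro _ _; simp
  | insert p D hp ih =>
    intro hpr hper
    have hprD : ∀ q ∈ D, q.Prime := fun q hq => hpr q (mem_insert_of_mem hq)
    have hperD : ∀ q ∈ D, ∀ t, w q (t + q) = w q t := fun q hq => hper q (mem_insert_of_mem hq)
    obtain ⟨h1, h2⟩ := ih hprD hperD
    have hp' := hpr p (mem_insert_self p D)
    have hw := hper p (mem_insert_self p D)
    have hco : Nat.Coprime (∏ q ∈ D, q) p := by
      refine Nat.Coprime.prod_left fun q hq => ?_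
      rw [Nat.coprime_primes (hprD q hq) hp']
      rintro rfl
      exact hp hq
    have hm : 0 < ∏ q ∈ D, q := prod_pos fun q hq => (hprD q hq).pos
    constructor
    · intro t
      rw [prod_insert hp, prod_insert hp, prod_insert hp]
      congr 1
      · exact per_mul hw _ _
      · rw [mul_comm p]
        exact per_mul (f := fun t => ∏ q ∈ D, w q t) h1 _ _
    · rw [prod_insert hp, prod_insert hp, mul_comm p, ← h2, mul_comm (∑ t ∈ range p, w p t)]
      rw [← crt_sum hm hp'.pos hco h1 hw]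
      refine sum_congr rfl fun t _ => ?_
      rw [prod_insert hp, mul_comm]

theorem bo : StmtBO := by
  intro S w r N hpr hw hper
  set ν : ℕ → ℝ := fun p => ∑ t ∈ range p, w p t with hν
  have hν0 : ∀ p ∈ S, 0 ≤ ν p := fun p hp => sum_nonneg fun t _ => (hw p hp t).1
  have hν1 : ∀ p ∈ S, 0 ≤ ν p / p ∧ ν p / p ≤ 1 := by
    intro p hp
    have hp0 : (0 : ℝ) < p := by exact_mod_cast (hpr p hp).pos
    refine ⟨div_nonneg (hν0 p hp) hp0.le, ?_⟩
    rw [div_le_one hp0]
    calc ν p ≤ ∑ t ∈ range p, (1 : ℝ) := sum_le_sum fun t _ => (hw p hp t).2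
      _ = p := by simp
  -- the sum of the elementary symmetric sums
  have hel : ∀ j, |∑ t ∈ range N, el (fun p => w p t) j S - N * el (fun p => ν p / p) j S| ≤
      el ν j S := by
    intro j
    unfold el
    rw [sum_comm, mul_sum, ← sum_sub_distrib]
    refine (abs_sum_le_sum_abs _ _).trans (sum_le_sum fun D hD => ?_)
    have hDS := (mem_powersetCard.1 hD).1
    obtain ⟨h1, h2⟩ := prod_per w D (fun p hp => hpr p (hDS hp)) (fun p hp => hper p (hDS hp))
    have hm : 0 < ∏ q ∈ D, q := prod_pos fun q hq => (hpr q (hDS hq)).pos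
    have h3 := per_bound (f := fun t => ∏ p ∈ D, w p t) hm h1
      (fun t => prod_nonneg fun p hp => (hw p (hDS hp) t).1) N
    rw [h2] at h3
    have h4 : (∏ p ∈ D, ∑ t ∈ range p, w p t) / ((∏ q ∈ D, q : ℕ) : ℝ) =
        ∏ p ∈ D, (ν p / p) := by
      rw [Nat.cast_prod, prod_div_distrib]
    rw [h4] at h3
    exact h3
  have hA : |∑ t ∈ range N, ∏ p ∈ S, (1 - w p t) - ∑ t ∈ range N, alt (fun p => w p t) r S| ≤
      ∑ t ∈ range N, el (fun p => w p t) (r + 1) S := by
    rw [← sum_sub_distrib]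
    refine (abs_sum_le_sum_abs _ _).trans (sum_le_sum fun t _ => ?_)
    exact alt_bound S (fun p hp => hw p hp t) r
  have hB : |∑ t ∈ range N, alt (fun p => w p t) r S - N * alt (fun p => ν p / p) r S| ≤
      ∑ j ∈ range (r + 1), el ν j S := by
    unfold alt
    rw [sum_comm, mul_sum, ← sum_sub_distrib]
    refine (abs_sum_le_sum_abs _ _).trans (sum_le_sum fun j _ => ?_)
    rw [← mul_sum, mul_left_comm, ← mul_sub, abs_mul, abs_pow, abs_neg, abs_one, one_pow,
      one_mul]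
    exact hel j
  have hC : |N * alt (fun p => ν p / p) r S - N * ∏ p ∈ S, (1 - ν p / p)| ≤
      N * el (fun p => ν p / p) (r + 1) S := by
    rw [← mul_sub, abs_mul, Nat.abs_cast, abs_sub_comm]
    exact mul_le_mul_of_nonneg_left (alt_bound S hν1 r) (Nat.cast_nonneg N)
  have hD : ∑ t ∈ range N, el (fun p => w p t) (r + 1) S ≤
      N * el (fun p => ν p / p) (r + 1) S + el ν (r + 1) S := by
    have := (abs_le.1 (hel (r + 1))).2
    linarith
  have hE : el (fun p => ν p / p) (r + 1) S ≤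
      (∑ p ∈ S, ν p / p) ^ (r + 1) / (r + 1).factorial := el_le S (fun p hp => (hν1 p hp).1) _
  have hF : ∑ j ∈ range (r + 1), el ν j S + el ν (r + 1) S ≤ (1 + ∑ p ∈ S, ν p) ^ (r + 1) := by
    rw [← sum_range_succ]
    exact sum_el_le S hν0 (r + 1)
  have hN : (0 : ℝ) ≤ N := Nat.cast_nonneg N
  calc |∑ t ∈ range N, ∏ p ∈ S, (1 - w p t) - N * ∏ p ∈ S, (1 - ν p / p)|
      = |(∑ t ∈ range N, ∏ p ∈ S, (1 - w p t) - ∑ t ∈ range N, alt (fun p => w p t) r S) +
          (∑ t ∈ range N, alt (fun p => w p t) r S - N * alt (fun p => ν p / p) r S) +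
          (N * alt (fun p => ν p / p) r S - N * ∏ p ∈ S, (1 - ν p / p))| := by
        congr 1; ring
    _ ≤ _ := abs_add_three _ _ _
    _ ≤ (N * el (fun p => ν p / p) (r + 1) S + el ν (r + 1) S) +
        ∑ j ∈ range (r + 1), el ν j S + N * el (fun p => ν p / p) (r + 1) S :=
        add_le_add (add_le_add (hA.trans hD) hB) hC
    _ = 2 * N * el (fun p => ν p / p) (r + 1) S +
        (∑ j ∈ range (r + 1), el ν j S + el ν (r + 1) S) := by ring
    _ ≤ 2 * N * ((∑ p ∈ S, ν p / p) ^ (r + 1) / (r + 1).factorial) +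
        (1 + ∑ p ∈ S, ν p) ^ (r + 1) := by gcongr

end Pool.Agent.Helper6.RR
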